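import Pool.Agent.RHO.Stmts4

/-!
# MP_ca8ef3_an, stage 2: row NM4, numbers
-/

set_option autoImplicit false

namespace Pool.Agent.RHO.H9d

theorem lin1 (a : ℕ) (ha : 4 ≤ a) : 8 * a + 26 ≤ 2 ^ (a + 2) := by
  induction a, ha using Nat.le_induction with
  | base => norm_num
  | succ a ha ih =>
    have h1 : 2 ^ (a + 1 + 2) = 2 * 2 ^ (a + 2) := by ring
    have h2 : 8 ≤ 2 ^ (a + 2) := by
      calc 8 = 2 ^ 3 := by norm_num
        _ ≤ 2 ^ (a + 2) := Nat.pow_le_pow_right (by norm_num) (by omega)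
    omega

theorem lin2 (a : ℕ) (ha : 4 ≤ a) : 37 + 10 * a ≤ 2 ^ (a + 4) := by
  have h := lin1 a ha
  have h1 : 2 ^ (a + 4) = 4 * 2 ^ (a + 2) := by ring
  omega

theorem sq_le (m : ℕ) : (m + 8 + 1) ^ 2 ≤ 2 ^ (m + 8 - 1) := by
  induction m with
  | zero => norm_num
  | succ m ih =>
    have h1 : 2 ^ (m + 1 + 8 - 1) = 2 * 2 ^ (m + 8 - 1) := by
      have : m + 1 + 8 - 1 = (m + 8 - 1) + 1 := by omega
      rw [this, pow_succ]
      ring
    rw [h1]
    generalize 2 ^ (m + 8 - 1) = X at ih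
    have h2 : (m + 1 + 8 + 1) ^ 2 ≤ 2 * (m + 8 + 1) ^ 2 := by
      have h3 : 2 * (m + 8 + 1) ^ 2 = (m + 1 + 8 + 1) ^ 2 + (m ^ 2 + 16 * m + 62) := by ring
      rw [h3]
      exact Nat.le_add_right _ _
    exact h2.trans (Nat.mul_le_mul_left 2 ih)

theorem step (x k : ℕ) (h : x ≤ 2 ^ k) : x + 1 ≤ 2 ^ (k + 1) := by
  have h1 : 1 ≤ 2 ^ k := Nat.one_le_two_pow
  rw [pow_succ]
  omega

theorem dbl (k : ℕ) : 2 ^ k + 2 ^ k = 2 ^ (k + 1) := by
  rw [pow_succ]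
  ring

theorem prod3 (u v : ℕ) : 2 ^ u * (2 ^ v * 2 ^ u) = 2 ^ (u + (v + u)) := by
  rw [← pow_add, ← pow_add]

theorem four (u v : ℕ) : 4 * 2 ^ u * 2 ^ v = 2 ^ (2 + u + v) := by
  rw [pow_add, pow_add]
  norm_num

theorem two (u v : ℕ) : 2 * 2 ^ u * 2 ^ v = 2 ^ (1 + u + v) := by
  rw [pow_add, pow_add]
  norm_num

theorem pt_le (a : ℕ) (ha : 4 ≤ a) : pt a ≤ 2 ^ (2 * a + 2) := by
  unfold pt
  calc 2 ^ a * (8 * a + 26) ≤ 2 ^ a * 2 ^ (a + 2) := Nat.mul_le_mul_left _ (lin1 a ha)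
    _ = 2 ^ (2 * a + 2) := by rw [← pow_add]; congr 1; omega

theorem eight (a : ℕ) (ha : 4 ≤ a) : 8 ^ pm a = 2 ^ (3 * a - 3) := by
  unfold pm
  have h : (8 : ℕ) = 2 ^ 3 := by norm_num
  rw [h, ← pow_mul]
  congr 1
  omega

theorem nm4 : NM4Stmt := by
  intro a ha
  have h8 := eight a ha
  have hpt := pt_le a ha
  have hT : qT a = 2 ^ (37 * a + 104) := rfl
  have hk : qk a = 37 * a + 104 := rfl
  have hTpos : 0 < qT a := by rw [hT]; positivity
  have hT8 : 8 ≤ qT a := by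
    rw [hT]
    calc 8 = 2 ^ 3 := by norm_num
      _ ≤ 2 ^ (37 * a + 104) := Nat.pow_le_pow_right (by norm_num) (by omega)
  refine ⟨?_, ?_, ?_, ?_, ?_, ?_, ?_⟩
  · rw [h8, hk]
    calc 4 * 2 ^ (3 * a - 3) * 2 ^ (32 * a + 104) =
          2 ^ (2 + (3 * a - 3) + (32 * a + 104)) := four _ _
      _ ≤ 2 ^ (37 * a + 104) := Nat.pow_le_pow_right (by norm_num) (by omega)
  · rw [hk, hT]
    have h1 : 2 ^ (37 * a + 104 + 1) = 2 * 2 ^ (37 * a + 104) := by
      rw [pow_succ]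
      ring
    rw [h1]
    rw [hT] at hT8
    omega
  · rw [h8, hT]
    calc pt a * (2 * 2 ^ (3 * a - 3) * 2 ^ (32 * a + 104)) =
          pt a * 2 ^ (1 + (3 * a - 3) + (32 * a + 104)) := by rw [two]
      _ ≤ 2 ^ (2 * a + 2) * 2 ^ (1 + (3 * a - 3) + (32 * a + 104)) :=
          Nat.mul_le_mul_right _ hpt
      _ = 2 ^ ((2 * a + 2) + (1 + (3 * a - 3) + (32 * a + 104))) := by rw [← pow_add]
      _ ≤ 2 ^ (37 * a + 104) := Nat.pow_le_pow_right (by norm_num) (by omega)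
  · exact Nat.mul_pos (by omega) hTpos
  · have hD : pD a + 1 ≤ 2 ^ (34 + 10 * a) := by
      unfold pD
      have h1 : 2 ^ (34 + 10 * a) = 2 * 2 ^ (33 + 10 * a) := by
        have : 34 + 10 * a = (33 + 10 * a) + 1 := by omega
        rw [this, pow_succ]
        ring
      have h2 : 1 ≤ 2 ^ (33 + 10 * a) := Nat.one_le_two_pow
      omega
    unfold qA
    generalize qT a = T at hTpos hT8 ⊢
    have hsq : (T + 1) ^ 2 ≤ 2 ^ (T - 1) := by
      obtain ⟨m, rfl⟩ : ∃ m, T = m + 8 := ⟨T - 8, by omega⟩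
      exact sq_le m
    calc (T + 1) ^ 2 * 2 ^ (T + 1) * (pD a + 1) ^ T ≤
          2 ^ (T - 1) * 2 ^ (T + 1) * (2 ^ (34 + 10 * a)) ^ T :=
          Nat.mul_le_mul (Nat.mul_le_mul_right _ hsq) (Nat.pow_le_pow_left hD T)
      _ = 2 ^ ((T - 1) + (T + 1) + (34 + 10 * a) * T) := by
          rw [← pow_mul, ← pow_add, ← pow_add]
      _ < 2 ^ ((37 + 10 * a) * T) := by
          apply Nat.pow_lt_pow_right (by norm_num)
          have h1 : (37 + 10 * a) * T = (34 + 10 * a) * T + 3 * T := by ring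
          omega
  · calc 2 * pt a + 2 ≤ 2 * 2 ^ (2 * a + 2) + 2 * 2 ^ (2 * a + 2) := by
          have h1 : 1 ≤ 2 ^ (2 * a + 2) := Nat.one_le_two_pow
          omega
      _ = 2 ^ (2 * a + 4) := by ring
      _ ≤ qT a := by
          rw [hT]
          exact Nat.pow_le_pow_right (by norm_num) (by omega)
  · have hn : qT a * qA a + 1 ≤ 2 ^ (129 * a) := by
      have h1 : qT a * qA a ≤ 2 ^ ((37 * a + 104) + ((a + 4) + (37 * a + 104))) := by
        have h2 : qA a ≤ 2 ^ (a + 4) * qT a := Nat.mul_le_mul_right _ (lin2 a ha)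
        refine (Nat.mul_le_mul_left _ h2).trans ?_
        rw [hT, prod3]
      refine (step _ _ h1).trans ?_
      apply Nat.pow_le_pow_right (by norm_num)
      omega
    have hd : qk a + 1 * pm a ≤ 64 * a := by
      unfold pm
      rw [hk]
      omega
    have hD : pD a ≤ 2 ^ (5 * a ^ 2) := by
      unfold pD
      apply Nat.pow_le_pow_right (by norm_num)
      nlinarith
    have hpow : (qT a * qA a + 1) ^ (qk a + 1 * pm a) ≤ 2 ^ (8256 * a ^ 2) := by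
      calc (qT a * qA a + 1) ^ (qk a + 1 * pm a) ≤ (2 ^ (129 * a)) ^ (qk a + 1 * pm a) :=
            Nat.pow_le_pow_left hn _
        _ ≤ (2 ^ (129 * a)) ^ (64 * a) := Nat.pow_le_pow_right (by positivity) hd
        _ = 2 ^ (8256 * a ^ 2) := by
            have e : 129 * a * (64 * a) = 8256 * a ^ 2 := by ring
            rw [← pow_mul, e]
    have h1 : pD a * (qT a * qA a + 1) ^ (qk a + 1 * pm a) ≤ 2 ^ (8261 * a ^ 2) := by
      calc pD a * (qT a * qA a + 1) ^ (qk a + 1 * pm a) ≤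
            2 ^ (5 * a ^ 2) * 2 ^ (8256 * a ^ 2) := Nat.mul_le_mul hD hpow
        _ = 2 ^ (8261 * a ^ 2) := by
            have e : 5 * a ^ 2 + 8256 * a ^ 2 = 8261 * a ^ 2 := by ring
            rw [← pow_add, e]
    have h2 : 1 + qT a * qA a ≤ 2 ^ (8261 * a ^ 2) := by
      calc 1 + qT a * qA a = qT a * qA a + 1 := by ring
        _ ≤ 2 ^ (129 * a) := hn
        _ ≤ 2 ^ (8261 * a ^ 2) := by
            apply Nat.pow_le_pow_right (by norm_num)
            nlinarith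
    calc 1 + qT a * qA a + pD a * (qT a * qA a + 1) ^ (qk a + 1 * pm a) ≤
          2 ^ (8261 * a ^ 2) + 2 ^ (8261 * a ^ 2) := Nat.add_le_add h2 h1
      _ = 2 ^ (8261 * a ^ 2 + 1) := dbl _
      _ ≤ 2 ^ (8300 * a ^ 2) := by
          apply Nat.pow_le_pow_right (by norm_num)
          nlinarith

end Pool.Agent.RHO.H9d
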